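import Pool.Agent.Helper37.ChoreoMain2

set_option autoImplicit false

namespace Pool.Agent.Results.MP_c28bf6_an.AtMostSixBodies

/-- A collision-free simple choreography of `n` Newtonian bodies with positive masses
`m 0, ..., m (n-1)` in Euclidean `d`-space: body `i` is at `x (t + i T / n)` at time `t`, where
`x` is a `C^2` curve of period `T`. -/
structure Choreo (n d : ℕ) (m : Fin n → ℝ) (x : ℝ → EuclideanSpace ℝ (Fin d)) (T : ℝ) : Prop where
  period_pos : 0 < T
  mass_pos : ∀ i, 0 < m i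
  smooth : ContDiff ℝ 2 x
  periodic : ∀ t, x (t + T) = x t
  no_collision : ∀ (t : ℝ) (i j : Fin n), i ≠ j →
    x (t + ((i : ℕ) : ℝ) * T / (n : ℝ)) ≠ x (t + ((j : ℕ) : ℝ) * T / (n : ℝ))
  newton : ∀ (t : ℝ) (i : Fin n),
    deriv (deriv x) (t + ((i : ℕ) : ℝ) * T / (n : ℝ)) =
      ∑ j ∈ Finset.univ.erase i,
        (m j * ‖x (t + ((j : ℕ) : ℝ) * T / (n : ℝ)) - x (t + ((i : ℕ) : ℝ) * T / (n : ℝ))‖ ^ (-3 : ℤ)) •
          (x (t + ((j : ℕ) : ℝ) * T / (n : ℝ)) - x (t + ((i : ℕ) : ℝ) * T / (n : ℝ)))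

open Pool.Agent.Helper37.Choreo in
theorem toDyn {k d : ℕ} {m : Fin (k + 1) → ℝ} {x : ℝ → EuclideanSpace ℝ (Fin d)} {T : ℝ}
    (h : Choreo (k + 1) d m x T) : Dyn (k + 1) (μ := (m : ZMod (k + 1) → ℝ)) x T where
  T_pos := h.period_pos
  smooth := h.smooth
  per := h.periodic
  inj := by
    intro t i j hij
    by_contra hne
    exact h.no_collision t i j hne hij
  newton := by
    intro t i
    have h1 := h.newton t i
    refine h1.trans ?_
    rw [← Finset.add_sum_erase Finset.univ _ (Finset.mem_univ i), sub_self, att_zero, smul_zero, zero_add]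
    refine Finset.sum_congr rfl fun j _ => ?_
    rw [mul_smul]
    rfl

/-- Choreographies of at most six bodies have equal masses, in any dimension; for any number of bodies
generic masses, a single odd mass, and (for a prime number of bodies) rationally related unequal
masses are impossible. -/
theorem result (n d : ℕ) (m : Fin n → ℝ) (x : ℝ → EuclideanSpace ℝ (Fin d)) (T : ℝ)
    (h : Choreo n d m x T) :
    (n ≤ 6 → ∀ i j : Fin n, m i = m j) ∧
    (∀ p : ℕ, p.Prime → p ∣ n → 0 < n →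
      ∃ ζ : ℂ, ζ ^ n = 1 ∧ ζ ^ (n / p) ≠ 1 ∧ ∑ j : Fin n, ζ ^ (j : ℕ) * (m j : ℂ) = 0) ∧
    (∀ p a : ℕ, p.Prime → n = p ^ (a + 1) → (∀ i j : Fin n, ∃ q : ℚ, m i = q * m j) →
      ∀ i j : Fin n, (i : ℕ) % p ^ a = (j : ℕ) % p ^ a → m i = m j) ∧
    (∀ i₀ : Fin n, (∀ i j : Fin n, i ≠ i₀ → j ≠ i₀ → m i = m j) → ∀ i j : Fin n, m i = m j) := by
  rcases n with _ | k
  · exact ⟨fun _ i => i.elim0, fun _ _ _ h0 => absurd h0 (lt_irrefl 0), fun _ _ _ _ _ i => i.elim0,
      fun i => i.elim0⟩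
  have D := toDyn h
  refine ⟨fun hn i j => D.small hn i j, fun p hp hpn _ => D.exists_inactive p hp hpn,
    fun p a hp hn hq i j hij => ?_, fun i₀ hi i j => ?_⟩
  · choose q hq using fun i : Fin (k + 1) => hq i 0
    exact D.prime_power p a hp hn q (m 0) (h.mass_pos 0).ne' hq i j hij
  · by_cases hk : ∃ i₁ : Fin (k + 1), i₁ ≠ i₀
    · obtain ⟨i₁, h1⟩ := hk
      exact D.one_odd i₀ (m i₁) (fun i hi' => hi i i₁ hi' h1) i j
    · push Not at hk
      rw [hk i, hk j]

end Pool.Agent.Results.MP_c28bf6_an.AtMostSixBodies
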